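import Pool.Agent.Helper54.TD.Defs

/-!
# The structure of maximal isotropic subspaces (TD B1)
-/

set_option autoImplicit false

namespace Pool.Agent.Helper17.TDB

open Module Finset

section General

variable {F : Type} [Field F] {V W : Type} [AddCommGroup V] [Module F V] [AddCommGroup W]
  [Module F W] [FiniteDimensional F V]

theorem finrank_map_add_inf_ker (f : V →ₗ[F] W) (L : Submodule F V) :
    finrank F (L.map f) + finrank F (L ⊓ LinearMap.ker f : Submodule F V) = finrank F L := by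
  have h := LinearMap.finrank_range_add_finrank_ker (f.domRestrict L)
  rw [LinearMap.range_domRestrict, LinearMap.ker_domRestrict] at h
  rw [← h, ← Submodule.map_comap_subtype, Submodule.finrank_map_subtype_eq]

variable {k : ℕ}

/-- The dot product as a bilinear form. -/
noncomputable def dotB (F : Type) [Field F] (k : ℕ) : LinearMap.BilinForm F (Fin k → F) :=
  dotProductBilin F F

theorem dotB_apply (x y : Fin k → F) : dotB F k x y = ∑ i, x i * y i := rfl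

theorem dotB_comm (x y : Fin k → F) : dotB F k x y = dotB F k y x := by
  rw [dotB_apply, dotB_apply]
  exact sum_congr rfl fun i _ => mul_comm _ _

theorem dotB_refl : (dotB F k).IsRefl := fun x y h => by
  rw [dotB_comm]
  exact h

theorem dotB_nondeg : (dotB F k).Nondegenerate := by
  have h : ∀ x : Fin k → F, (∀ y, dotB F k x y = 0) → x = 0 := by
    intro x hx
    funext i
    have h1 := hx (Pi.single i 1)
    rw [dotB_apply] at h1
    simpa [Pi.single_apply] using h1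
  refine ⟨h, fun x hx => h x fun y => ?_⟩
  rw [dotB_comm]
  exact hx y

/-- The orthogonal space for the dot product. -/
noncomputable def perp (A : Submodule F (Fin k → F)) : Submodule F (Fin k → F) :=
  (dotB F k).orthogonal A

theorem mem_perp {A : Submodule F (Fin k → F)} {y : Fin k → F} :
    y ∈ perp A ↔ ∀ a ∈ A, ∑ i, a i * y i = 0 := by
  unfold perp
  rw [LinearMap.BilinForm.mem_orthogonal_iff]
  rfl

theorem finrank_perp (A : Submodule F (Fin k → F)) :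
    finrank F (perp A) + finrank F A = k := by
  have h1 := LinearMap.BilinForm.finrank_orthogonal dotB_nondeg A
  have h2 := Submodule.finrank_le A
  rw [finrank_fin_fun] at h1 h2
  unfold perp
  omega

theorem perp_perp (A : Submodule F (Fin k → F)) : perp (perp A) = A :=
  LinearMap.BilinForm.orthogonal_orthogonal dotB_nondeg dotB_refl A

end General

section Main

open Pool.Agent.Helper54.PT

variable {ℓ : ℕ} [Fact ℓ.Prime] {k : ℕ}

/-- The vectors `y` with `(0, y) ∈ L`. -/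
def NN (L : Submodule (ZMod ℓ) ((Fin k → ZMod ℓ) × (Fin k → ZMod ℓ))) :
    Submodule (ZMod ℓ) (Fin k → ZMod ℓ) :=
  L.comap (LinearMap.inr (ZMod ℓ) (Fin k → ZMod ℓ) (Fin k → ZMod ℓ))

/-- The first projection of `L`. -/
def AA (L : Submodule (ZMod ℓ) ((Fin k → ZMod ℓ) × (Fin k → ZMod ℓ))) :
    Submodule (ZMod ℓ) (Fin k → ZMod ℓ) :=
  L.map (LinearMap.fst (ZMod ℓ) (Fin k → ZMod ℓ) (Fin k → ZMod ℓ))

theorem mem_NN {L : Submodule (ZMod ℓ) ((Fin k → ZMod ℓ) × (Fin k → ZMod ℓ))}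
    {y : Fin k → ZMod ℓ} : y ∈ NN L ↔ ((0 : Fin k → ZMod ℓ), y) ∈ L := Iff.rfl

theorem mem_AA {L : Submodule (ZMod ℓ) ((Fin k → ZMod ℓ) × (Fin k → ZMod ℓ))}
    {x : Fin k → ZMod ℓ} : x ∈ AA L ↔ ∃ y, (x, y) ∈ L := by
  unfold AA
  rw [Submodule.mem_map]
  constructor
  · rintro ⟨⟨x', y⟩, h, rfl⟩
    exact ⟨y, h⟩
  · rintro ⟨y, h⟩
    exact ⟨(x, y), h, rfl⟩

theorem finrank_AA_add_NN (L : Submodule (ZMod ℓ) ((Fin k → ZMod ℓ) × (Fin k → ZMod ℓ))) :
    finrank (ZMod ℓ) (AA L) + finrank (ZMod ℓ) (NN L) = finrank (ZMod ℓ) L := by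
  rw [← finrank_map_add_inf_ker
    (LinearMap.fst (ZMod ℓ) (Fin k → ZMod ℓ) (Fin k → ZMod ℓ)) L]
  have h1 : (L ⊓ LinearMap.ker (LinearMap.fst (ZMod ℓ) (Fin k → ZMod ℓ) (Fin k → ZMod ℓ)) :
      Submodule (ZMod ℓ) ((Fin k → ZMod ℓ) × (Fin k → ZMod ℓ))) =
      (NN L).map (LinearMap.inr (ZMod ℓ) (Fin k → ZMod ℓ) (Fin k → ZMod ℓ)) := by
    ext ⟨x, y⟩
    rw [Submodule.mem_inf, LinearMap.mem_ker, Submodule.mem_map]
    constructor
    · rintro ⟨h, rfl⟩
      exact ⟨y, h, rfl⟩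
    · rintro ⟨y', h, h'⟩
      obtain ⟨rfl, rfl⟩ := Prod.mk.inj h'
      exact ⟨h, rfl⟩
  rw [h1, LinearEquiv.finrank_eq (Submodule.equivMapOfInjective _ LinearMap.inr_injective _).symm]
  rfl

theorem phiK_eq (z z' : (Fin k → ZMod ℓ) × (Fin k → ZMod ℓ)) :
    phiK z z' = dotB (ZMod ℓ) k z.1 z'.2 + dotB (ZMod ℓ) k z'.1 z.2 := by
  rw [phiK, sum_add_distrib]
  rfl

theorem NN_eq {L : Submodule (ZMod ℓ) ((Fin k → ZMod ℓ) × (Fin k → ZMod ℓ))} (hL : IsLk L) :
    perp (AA L) = NN L := by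
  have h1 : NN L ≤ perp (AA L) := by
    intro y hy
    rw [mem_perp]
    intro x hx
    obtain ⟨y', hxy⟩ := mem_AA.1 hx
    have h2 := hL.2 _ hxy _ (mem_NN.1 hy)
    rw [phiK_eq] at h2
    simp only [dotB_apply] at h2
    simpa using h2
  refine (Submodule.eq_of_le_of_finrank_eq h1 ?_).symm
  have h2 := finrank_perp (AA L)
  have h3 := finrank_AA_add_NN L
  rw [hL.1] at h3
  omega

/-- The value of the form with matrix `B`. -/
def bil (B : Fin k → Fin k → ZMod ℓ) (a x : Fin k → ZMod ℓ) : ZMod ℓ :=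
  ∑ i, a i * ∑ i', B i i' * x i'

theorem mem_LAB {A : Submodule (ZMod ℓ) (Fin k → ZMod ℓ)} {B : Fin k → Fin k → ZMod ℓ}
    {z : (Fin k → ZMod ℓ) × (Fin k → ZMod ℓ)} :
    z ∈ LAB A B ↔ z.1 ∈ A ∧ ∀ a ∈ A, ∑ i, a i * z.2 i = bil B a z.1 := by
  constructor
  · rintro ⟨h1, h2⟩
    refine ⟨h1, fun a ha => ?_⟩
    have h3 := h2 a ha
    simp only [mul_sub, sum_sub_distrib] at h3
    exact sub_eq_zero.1 h3
  · rintro ⟨h1, h2⟩
    refine ⟨h1, fun a ha => ?_⟩
    simp only [mul_sub, sum_sub_distrib]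
    exact sub_eq_zero.2 (h2 a ha)

/-- The matrix of a bilinear form. -/
theorem bil_of_linear (f : (Fin k → ZMod ℓ) →ₗ[ZMod ℓ] (Fin k → ZMod ℓ) →ₗ[ZMod ℓ] ZMod ℓ)
    (a x : Fin k → ZMod ℓ) :
    bil (fun i i' => f (Pi.single i 1) (Pi.single i' 1)) a x = f a x := by
  have h1 : ∀ y : Fin k → ZMod ℓ, ∑ i, y i • (Pi.single i (1 : ZMod ℓ)) = y := by
    intro y
    funext j
    rw [Finset.sum_apply]
    simp [Pi.single_apply]
  have h2 : ∀ i, f (Pi.single i 1) x = ∑ i', f (Pi.single i 1) (Pi.single i' 1) * x i' := by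
    intro i
    conv_lhs => rw [← h1 x]
    rw [map_sum]
    refine sum_congr rfl fun i' _ => ?_
    rw [map_smul, smul_eq_mul, mul_comm]
  have h3 : f a x = ∑ i, a i * f (Pi.single i 1) x := by
    conv_lhs => rw [← h1 a]
    rw [map_sum, LinearMap.sum_apply]
    refine sum_congr rfl fun i _ => ?_
    rw [map_smul, LinearMap.smul_apply, smul_eq_mul]
  rw [h3, bil]
  exact sum_congr rfl fun i _ => by rw [h2]

end Main

end Pool.Agent.Helper17.TDB

namespace Pool.Agent.Helper54.PT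

open Module Finset Pool.Agent.Helper17.TDB

variable {ℓ : ℕ} [Fact ℓ.Prime] {k : ℕ}

/-- B1: the structure of maximal isotropic subspaces -/
theorem exists_AB (L : Submodule (ZMod ℓ) ((Fin k → ZMod ℓ) × (Fin k → ZMod ℓ))) (hL : IsLk L) :
    ∃ (A : Submodule (ZMod ℓ) (Fin k → ZMod ℓ)) (B : Fin k → Fin k → ZMod ℓ),
      (∀ i i', B i i' + B i' i = 0) ∧ L = LAB A B := by
  -- a linear section
  obtain ⟨P, hP⟩ := LinearMap.exists_leftInverse_of_injective (AA L).subtype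
    (Submodule.ker_subtype _)
  let p : L →ₗ[ZMod ℓ] AA L :=
    ((LinearMap.fst (ZMod ℓ) (Fin k → ZMod ℓ) (Fin k → ZMod ℓ)).domRestrict L).codRestrict (AA L)
      fun z => mem_AA.2 ⟨z.1.2, z.2⟩
  have hp : LinearMap.range p = ⊤ := by
    rw [LinearMap.range_eq_top]
    intro x
    obtain ⟨y, hy⟩ := mem_AA.1 x.2
    exact ⟨⟨(x.1, y), hy⟩, Subtype.ext rfl⟩
  obtain ⟨g, hg⟩ := LinearMap.exists_rightInverse_of_surjective p hp
  let S : AA L →ₗ[ZMod ℓ] (Fin k → ZMod ℓ) :=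
    (LinearMap.snd (ZMod ℓ) (Fin k → ZMod ℓ) (Fin k → ZMod ℓ)) ∘ₗ L.subtype ∘ₗ g
  have hS : ∀ x : AA L, ((x : Fin k → ZMod ℓ), S x) ∈ L := by
    intro x
    have h1 : ((g x : (Fin k → ZMod ℓ) × (Fin k → ZMod ℓ))).1 = x := by
      have h2 := LinearMap.congr_fun hg x
      exact congrArg Subtype.val h2
    have h3 : ((x : Fin k → ZMod ℓ), S x) = (g x : (Fin k → ZMod ℓ) × (Fin k → ZMod ℓ)) :=
      Prod.ext h1.symm rfl
    rw [h3]
    exact (g x).2
  have hPA : ∀ x (hx : x ∈ AA L), P x = ⟨x, hx⟩ := fun x hx => LinearMap.congr_fun hP ⟨x, hx⟩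
  let f : (Fin k → ZMod ℓ) →ₗ[ZMod ℓ] (Fin k → ZMod ℓ) →ₗ[ZMod ℓ] ZMod ℓ :=
    (dotB (ZMod ℓ) k).compl₁₂ ((AA L).subtype ∘ₗ P) (S ∘ₗ P)
  have hf : ∀ a x, f a x = dotB (ZMod ℓ) k (P a : Fin k → ZMod ℓ) (S (P x)) := fun a x => rfl
  refine ⟨AA L, fun i i' => f (Pi.single i 1) (Pi.single i' 1), ?_, ?_⟩
  · intro i i'
    change f _ _ + f _ _ = 0
    rw [hf, hf]
    have h1 := hL.2 _ (hS (P (Pi.single i 1))) _ (hS (P (Pi.single i' 1)))
    rw [phiK_eq] at h1
    exact h1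
  · ext z
    rw [mem_LAB]
    have key : ∀ hz : z.1 ∈ AA L, (z ∈ L ↔ z.2 - S ⟨z.1, hz⟩ ∈ NN L) := by
      intro hz
      rw [mem_NN]
      have h1 : ((0 : Fin k → ZMod ℓ), z.2 - S ⟨z.1, hz⟩) = z - (z.1, S ⟨z.1, hz⟩) := by
        ext i <;> simp
      rw [h1]
      constructor
      · exact fun h => L.sub_mem h (hS ⟨z.1, hz⟩)
      · intro h
        have h2 := L.add_mem h (hS ⟨z.1, hz⟩)
        rw [sub_add_cancel] at h2
        exact h2
    constructor
    · intro hz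
      have hz1 : z.1 ∈ AA L := mem_AA.2 ⟨z.2, hz⟩
      refine ⟨hz1, fun a ha => ?_⟩
      have h1 := (key hz1).1 hz
      rw [← NN_eq hL, mem_perp] at h1
      have h2 := h1 a ha
      rw [bil_of_linear, hf, hPA a ha, hPA z.1 hz1, dotB_apply]
      simp only [Pi.sub_apply, mul_sub, sum_sub_distrib] at h2
      exact sub_eq_zero.1 h2
    · rintro ⟨hz1, h1⟩
      rw [key hz1, ← NN_eq hL, mem_perp]
      intro a ha
      have h2 := h1 a ha
      rw [bil_of_linear, hf, hPA a ha, hPA z.1 hz1, dotB_apply] at h2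
      simp only [Pi.sub_apply, mul_sub, sum_sub_distrib]
      exact sub_eq_zero.2 h2

end Pool.Agent.Helper54.PT
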