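import Pool.Agent.Helper17.TD.B1

/-!
# The subspaces `LAB A B` are maximal isotropic (TD B2)
-/

set_option autoImplicit false

namespace Pool.Agent.Helper17.TDB

open Module Finset Pool.Agent.Helper54.PT

variable {ℓ : ℕ} [Fact ℓ.Prime] {k : ℕ}

theorem AA_LAB (A : Submodule (ZMod ℓ) (Fin k → ZMod ℓ)) (B : Fin k → Fin k → ZMod ℓ) :
    AA (LAB A B) = A := by
  ext x
  rw [mem_AA]
  constructor
  · rintro ⟨y, h⟩
    exact h.1
  · intro hx
    exact ⟨fun i => ∑ i', B i i' * x i', mem_LAB.2 ⟨hx, fun a _ => rfl⟩⟩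

theorem NN_LAB (A : Submodule (ZMod ℓ) (Fin k → ZMod ℓ)) (B : Fin k → Fin k → ZMod ℓ) :
    NN (LAB A B) = perp A := by
  ext y
  rw [mem_NN, mem_LAB, mem_perp]
  have h : ∀ a : Fin k → ZMod ℓ, bil B a 0 = 0 := by
    intro a
    simp [bil]
  constructor
  · rintro ⟨_, h1⟩ a ha
    exact (h1 a ha).trans (h a)
  · intro h1
    exact ⟨A.zero_mem, fun a ha => (h1 a ha).trans (h a).symm⟩

theorem bil_anti {B : Fin k → Fin k → ZMod ℓ} (hB : ∀ i i', B i i' + B i' i = 0)
    (a x : Fin k → ZMod ℓ) : bil B a x + bil B x a = 0 := by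
  have h1 : bil B a x = ∑ i, ∑ i', B i i' * (a i * x i') := by
    rw [bil]
    refine sum_congr rfl fun i _ => ?_
    rw [mul_sum]
    exact sum_congr rfl fun i' _ => by ring
  have h2 : bil B x a = ∑ i, ∑ i', B i' i * (a i * x i') := by
    rw [bil, sum_comm]
    have : ∀ i, x i * ∑ i', B i i' * a i' = ∑ i', B i i' * (a i' * x i) := by
      intro i
      rw [mul_sum]
      exact sum_congr rfl fun i' _ => by ring
    exact sum_congr rfl fun i _ => this i
  rw [h1, h2, ← sum_add_distrib]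
  refine sum_eq_zero fun i _ => ?_
  rw [← sum_add_distrib]
  refine sum_eq_zero fun i' _ => ?_
  rw [← add_mul, hB, zero_mul]

end Pool.Agent.Helper17.TDB

namespace Pool.Agent.Helper54.PT

open Module Finset Pool.Agent.Helper17.TDB

variable {ℓ : ℕ} [Fact ℓ.Prime] {k : ℕ}

/-- B2: the converse -/
theorem isLk_LAB (A : Submodule (ZMod ℓ) (Fin k → ZMod ℓ)) (B : Fin k → Fin k → ZMod ℓ)
    (hB : ∀ i i', B i i' + B i' i = 0) : IsLk (LAB A B) := by
  constructor
  · have h1 := finrank_AA_add_NN (LAB A B)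
    have h2 := finrank_perp A
    rw [AA_LAB, NN_LAB] at h1
    omega
  · intro z hz z' hz'
    rw [mem_LAB] at hz hz'
    rw [phiK_eq, dotB_apply, dotB_apply, hz'.2 _ hz.1, hz.2 _ hz'.1]
    exact bil_anti hB _ _

end Pool.Agent.Helper54.PT
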