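import Pool.Agent.Helper17.TD.B2

/-!
# The number of maximal isotropic subspaces (TD B3)
-/

set_option autoImplicit false

namespace Pool.Agent.Helper17.TDB

open Module Finset Pool.Agent.Helper54.PT

variable {ℓ : ℕ} [Fact ℓ.Prime] {k : ℕ}

theorem LAB_congr {A : Submodule (ZMod ℓ) (Fin k → ZMod ℓ)} {B B' : Fin k → Fin k → ZMod ℓ}
    (h : ∀ a ∈ A, ∀ x ∈ A, bil B a x = bil B' a x) : LAB A B = LAB A B' := by
  ext z
  rw [mem_LAB, mem_LAB]
  constructor
  · rintro ⟨h1, h2⟩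
    exact ⟨h1, fun a ha => (h2 a ha).trans (h a ha _ h1)⟩
  · rintro ⟨h1, h2⟩
    exact ⟨h1, fun a ha => (h2 a ha).trans (h a ha _ h1).symm⟩

theorem bil_of_LAB_eq {A : Submodule (ZMod ℓ) (Fin k → ZMod ℓ)}
    {B B' : Fin k → Fin k → ZMod ℓ} (h : LAB A B = LAB A B') :
    ∀ a ∈ A, ∀ x ∈ A, bil B a x = bil B' a x := by
  intro a ha x hx
  have h1 : (x, fun i => ∑ i', B i i' * x i') ∈ LAB A B := mem_LAB.2 ⟨hx, fun a _ => rfl⟩
  rw [h, mem_LAB] at h1
  exact h1.2 a ha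

/-- The value of the form with matrix `B` as a bilinear form. -/
noncomputable def bilL (B : Fin k → Fin k → ZMod ℓ) :
    (Fin k → ZMod ℓ) →ₗ[ZMod ℓ] (Fin k → ZMod ℓ) →ₗ[ZMod ℓ] ZMod ℓ :=
  LinearMap.mk₂ (ZMod ℓ) (bil B)
    (fun a a' x => by simp only [bil, Pi.add_apply, add_mul, sum_add_distrib])
    (fun c a x => by
      simp only [bil, Pi.smul_apply, smul_eq_mul, mul_sum]
      exact sum_congr rfl fun i _ => sum_congr rfl fun i' _ => by ring)
    (fun a x x' => by simp only [bil, Pi.add_apply, mul_add, sum_add_distrib])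
    (fun c a x => by
      simp only [bil, Pi.smul_apply, smul_eq_mul, mul_sum]
      exact sum_congr rfl fun i _ => sum_congr rfl fun i' _ => by ring)

theorem bilL_apply (B : Fin k → Fin k → ZMod ℓ) (a x : Fin k → ZMod ℓ) :
    bilL B a x = bil B a x := rfl

/-- A basis of `A`. -/
noncomputable def bs (A : Submodule (ZMod ℓ) (Fin k → ZMod ℓ)) :
    Basis (Fin (finrank (ZMod ℓ) A)) (ZMod ℓ) A := finBasis (ZMod ℓ) A

/-- A projection to `A`. -/
noncomputable def pr (A : Submodule (ZMod ℓ) (Fin k → ZMod ℓ)) :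
    (Fin k → ZMod ℓ) →ₗ[ZMod ℓ] A :=
  (LinearMap.exists_leftInverse_of_injective A.subtype (Submodule.ker_subtype _)).choose

theorem pr_apply (A : Submodule (ZMod ℓ) (Fin k → ZMod ℓ)) (x : A) :
    pr A (x : Fin k → ZMod ℓ) = x :=
  LinearMap.congr_fun
    (LinearMap.exists_leftInverse_of_injective A.subtype (Submodule.ker_subtype _)).choose_spec x

/-- The coordinates of the projection to `A`. -/
noncomputable def co (A : Submodule (ZMod ℓ) (Fin k → ZMod ℓ)) :
    (Fin k → ZMod ℓ) →ₗ[ZMod ℓ] (Fin (finrank (ZMod ℓ) A) → ZMod ℓ) :=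
  (bs A).equivFun.toLinearMap ∘ₗ pr A

theorem co_basis (A : Submodule (ZMod ℓ) (Fin k → ZMod ℓ)) (p : Fin (finrank (ZMod ℓ) A)) :
    co A (bs A p) = Pi.single p 1 := by
  have h : co A (bs A p) = (bs A).equivFun (bs A p) := by
    change (bs A).equivFun (pr A (bs A p)) = _
    rw [pr_apply]
  rw [h]
  funext q
  rw [Basis.equivFun_self, Pi.single_apply]
  by_cases hpq : p = q
  · rw [if_pos hpq, if_pos hpq.symm]
  · rw [if_neg hpq, if_neg (fun h => hpq h.symm)]

/-- The matrix attached to the matrix `S` in the basis of `A`. -/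
noncomputable def BS (A : Submodule (ZMod ℓ) (Fin k → ZMod ℓ))
    (S : Fin (finrank (ZMod ℓ) A) → Fin (finrank (ZMod ℓ) A) → ZMod ℓ) :
    Fin k → Fin k → ZMod ℓ :=
  fun i i' => ((bilL S).compl₁₂ (co A) (co A)) (Pi.single i 1) (Pi.single i' 1)

theorem bil_BS (A : Submodule (ZMod ℓ) (Fin k → ZMod ℓ))
    (S : Fin (finrank (ZMod ℓ) A) → Fin (finrank (ZMod ℓ) A) → ZMod ℓ)
    (a x : Fin k → ZMod ℓ) : bil (BS A S) a x = bil S (co A a) (co A x) :=
  bil_of_linear ((bilL S).compl₁₂ (co A) (co A)) a x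

theorem bil_single {m : ℕ} (S : Fin m → Fin m → ZMod ℓ) (p q : Fin m) :
    bil S (Pi.single p 1) (Pi.single q 1) = S p q := by
  simp [bil, Pi.single_apply]

theorem BS_anti (A : Submodule (ZMod ℓ) (Fin k → ZMod ℓ))
    {S : Fin (finrank (ZMod ℓ) A) → Fin (finrank (ZMod ℓ) A) → ZMod ℓ}
    (hS : ∀ p q, S p q + S q p = 0) (i i' : Fin k) : BS A S i i' + BS A S i' i = 0 :=
  bil_anti hS (co A (Pi.single i 1)) (co A (Pi.single i' 1))

/-- Bilinear forms agree on `A` if they agree on the basis. -/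
theorem bil_ext {A : Submodule (ZMod ℓ) (Fin k → ZMod ℓ)} {B B' : Fin k → Fin k → ZMod ℓ}
    (h : ∀ p q, bil B (bs A p) (bs A q) = bil B' (bs A p) (bs A q)) :
    ∀ a ∈ A, ∀ x ∈ A, bil B a x = bil B' a x := by
  have h1 : (bilL B).compl₁₂ A.subtype A.subtype = (bilL B').compl₁₂ A.subtype A.subtype := by
    refine (bs A).ext fun p => (bs A).ext fun q => ?_
    exact h p q
  intro a ha x hx
  exact LinearMap.congr_fun (LinearMap.congr_fun h1 ⟨a, ha⟩) ⟨x, hx⟩

/-- The antisymmetric matrices. -/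
def Anti (ℓ m : ℕ) : Type := {S : Fin m → Fin m → ZMod ℓ // ∀ i j, S i j + S j i = 0}

/-- The classification of the maximal isotropic subspaces. -/
noncomputable def toL (x : (A : Submodule (ZMod ℓ) (Fin k → ZMod ℓ)) ×
    Anti ℓ (finrank (ZMod ℓ) A)) :
    {L : Submodule (ZMod ℓ) ((Fin k → ZMod ℓ) × (Fin k → ZMod ℓ)) // IsLk L} :=
  ⟨LAB x.1 (BS x.1 x.2.1), isLk_LAB _ _ (BS_anti x.1 x.2.2)⟩

theorem toL_bij : Function.Bijective (toL (ℓ := ℓ) (k := k)) := by
  constructor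
  · rintro ⟨A, S⟩ ⟨A', S'⟩ h
    have h1 : LAB A (BS A S.1) = LAB A' (BS A' S'.1) := congrArg Subtype.val h
    have h2 : A = A' := by
      rw [← AA_LAB A (BS A S.1), h1, AA_LAB]
    subst h2
    congr 1
    apply Subtype.ext
    funext p q
    have h3 := bil_of_LAB_eq h1 (bs A p) (bs A p).2 (bs A q) (bs A q).2
    rw [bil_BS, bil_BS, co_basis, co_basis, bil_single, bil_single] at h3
    exact h3
  · rintro ⟨L, hL⟩
    obtain ⟨A, B, hB, rfl⟩ := exists_AB L hL
    refine ⟨⟨A, ⟨fun p q => bil B (bs A p) (bs A q), fun p q => bil_anti hB _ _⟩⟩, ?_⟩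
    apply Subtype.ext
    refine LAB_congr (bil_ext fun p q => ?_)
    rw [bil_BS, co_basis, co_basis, bil_single]

end Pool.Agent.Helper17.TDB

namespace Pool.Agent.Helper54.PT

open Module Finset Pool.Agent.Helper17.TDB

variable {ℓ : ℕ} [Fact ℓ.Prime]

/-- B3: the number of maximal isotropic subspaces -/
theorem card_NL (k : ℕ) : NL ℓ k = ∑ m ∈ range (k + 1), nsub ℓ k m * gk ℓ m := by
  classical
  have : Fintype (Submodule (ZMod ℓ) (Fin k → ZMod ℓ)) := Fintype.ofFinite _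
  have : ∀ A : Submodule (ZMod ℓ) (Fin k → ZMod ℓ), Finite (Anti ℓ (finrank (ZMod ℓ) A)) :=
    fun A => Subtype.finite
  have h1 : NL ℓ k = ∑ A : Submodule (ZMod ℓ) (Fin k → ZMod ℓ), gk ℓ (finrank (ZMod ℓ) A) := by
    unfold NL
    rw [← Nat.card_congr (Equiv.ofBijective _ (toL_bij (ℓ := ℓ) (k := k))), Nat.card_sigma]
    rfl
  have h2 : ∀ A ∈ (univ : Finset (Submodule (ZMod ℓ) (Fin k → ZMod ℓ))),
      finrank (ZMod ℓ) A ∈ range (k + 1) := by
    intro A _
    have h := Submodule.finrank_le A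
    rw [finrank_fin_fun] at h
    exact mem_range.2 (Nat.lt_succ_of_le h)
  rw [h1, ← sum_fiberwise_of_maps_to h2]
  refine sum_congr rfl fun m _ => ?_
  have h3 : ∀ A ∈ univ.filter (fun A : Submodule (ZMod ℓ) (Fin k → ZMod ℓ) =>
      finrank (ZMod ℓ) A = m), gk ℓ (finrank (ZMod ℓ) A) = gk ℓ m := by
    intro A hA
    rw [(mem_filter.1 hA).2]
  rw [sum_congr rfl h3, sum_const, smul_eq_mul]
  congr 1
  unfold nsub
  rw [Nat.card_eq_fintype_card, Fintype.card_subtype]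

end Pool.Agent.Helper54.PT
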