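import Pool.Agent.Helper54.TD.Defs

/-!
# The phases cancel (TD C3)
-/

set_option autoImplicit false

namespace Pool.Agent.Helper17.TDC

open Module Finset Pool.Agent.Helper54.PT

/-- The sum of an antisymmetric matrix against a symmetric one is the sum over the diagonal. -/
theorem sum_anti_sym {ι R : Type} [Fintype ι] [CommRing R] (B G : ι → ι → R)
    (hB : ∀ i j, B i j + B j i = 0) (hG : ∀ i j, G i j = G j i) :
    ∑ i, ∑ j, B i j * G j i = ∑ i, B i i * G i i := by
  classical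
  have h1 : ∑ i, ∑ j, B i j * G j i =
      ∑ x : ι × ι, B x.1 x.2 * G x.2 x.1 :=
    (Fintype.sum_prod_type (fun x : ι × ι => B x.1 x.2 * G x.2 x.1)).symm
  have h2 : ∑ x ∈ (univ : Finset (ι × ι)).filter (fun x => ¬ x.1 = x.2),
      B x.1 x.2 * G x.2 x.1 = 0 := by
    refine sum_involution (fun x _ => (x.2, x.1)) ?_ ?_ ?_ ?_
    · intro x _
      change B x.1 x.2 * G x.2 x.1 + B x.2 x.1 * G x.1 x.2 = 0
      rw [hG x.1 x.2, ← add_mul, hB, zero_mul]
    · intro x hx _ h
      exact (mem_filter.1 hx).2 (congrArg Prod.snd h)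
    · intro x hx
      exact mem_filter.2 ⟨mem_univ _, fun h => (mem_filter.1 hx).2 h.symm⟩
    · intro x _
      rfl
  rw [h1, ← sum_filter_add_sum_filter_not univ (fun x : ι × ι => x.1 = x.2), h2, add_zero]
  symm
  refine sum_bij (fun i _ => (i, i)) (fun i _ => mem_filter.2 ⟨mem_univ _, rfl⟩)
    (fun i _ j _ h => congrArg Prod.fst h) (fun x hx => ?_) (fun i _ => rfl)
  exact ⟨x.1, mem_univ _, Prod.ext rfl (mem_filter.1 hx).2⟩

variable {ℓ : ℕ} {J : Type} [Fintype J] {β : J → J → ZMod ℓ}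

theorem bt_comm (hsym : ∀ i j, β i j = β j i) (x y : J → ZMod ℓ) : bt β x y = bt β y x := by
  unfold bt
  rw [sum_comm]
  refine sum_congr rfl fun i _ => sum_congr rfl fun j _ => ?_
  rw [hsym]
  ring

theorem bt_smul_right (c : ZMod ℓ) (x y : J → ZMod ℓ) :
    bt β x (fun j => c * y j) = c * bt β x y := by
  unfold bt
  rw [mul_sum]
  refine sum_congr rfl fun i _ => ?_
  rw [mul_sum]
  exact sum_congr rfl fun j _ => by ring

end Pool.Agent.Helper17.TDC

namespace Pool.Agent.Helper54.PT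

open Module Finset Pool.Agent.Helper17.TDC

variable {ℓ : ℕ} [Fact ℓ.Prime] {σ : Type} [Fintype σ] [DecidableEq σ] {J : Type} [Fintype J]
  [DecidableEq J] {β γ : J → J → ZMod ℓ} {τ : (J → ZMod ℓ) →+ (J → Option σ → ZMod ℓ)}
  {H : (Option σ → J → ZMod ℓ) → (Option σ → J → ZMod ℓ) → (Option σ → ZMod ℓ) → Prop}

/-- C3: the phases cancel -/
theorem sum_phs (hH : TDat β γ τ H) {k : ℕ} (B : Fin k → Fin k → ZMod ℓ)
    (hB : ∀ i i', B i i' + B i' i = 0) (w : Fin k → J → ZMod ℓ) (κ : Option σ → ZMod ℓ)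
    (b y : Option σ → J × Fin k → ZMod ℓ) (h : HK k H b y κ) :
    ∑ s, phs β (tauS τ s) B w (κ s) (b s) (y s) = 0 := by
  -- the first two terms
  have h1 : ∀ i, ∑ s, bt β (tauS τ s (w i)) (fun j => y s (j, i)) =
      ∑ s, κ s * bt β (w i) (fun j => b s (j, i)) := by
    intro i
    have h2 := hH.iso _ _ _ _ κ (hH.tor (w i) κ) (h i)
    refine h2.trans (sum_congr rfl fun s _ => ?_)
    rw [bt_smul_right, bt_comm hH.sym]
  -- the symmetric matrix
  have h3 : ∑ s, ∑ i, ∑ i', B i i' * bt β (fun j => b s (j, i')) (fun j => y s (j, i)) =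
      ∑ i, B i i * ∑ s, bt β (fun j => b s (j, i)) (fun j => y s (j, i)) := by
    rw [← sum_anti_sym B
      (fun i' i => ∑ s, bt β (fun j => b s (j, i')) (fun j => y s (j, i))) hB
      (fun i i' => hH.iso _ _ _ _ κ (h i) (h i')), sum_comm]
    refine sum_congr rfl fun i _ => ?_
    rw [sum_comm]
    exact sum_congr rfl fun i' _ => (mul_sum _ _ _).symm
  have h4 : ∑ s, ∑ i, B i i * bt β (fun j => y s (j, i)) (tauS τ s fun j => y s (j, i)) =
      ∑ i, B i i * ∑ s, bt β (fun j => b s (j, i)) (fun j => y s (j, i)) := by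
    rw [sum_comm]
    refine sum_congr rfl fun i _ => ?_
    rw [← mul_sum]
    exact (hH.quad (B i i) (hB i i) _ _ κ (h i)).symm
  have h5 : ∑ s, ∑ i, bt β (tauS τ s (w i)) (fun j => y s (j, i)) =
      ∑ s, κ s * ∑ i, bt β (w i) (fun j => b s (j, i)) := by
    rw [sum_comm, sum_congr rfl fun i _ => h1 i, sum_comm]
    exact sum_congr rfl fun s _ => (mul_sum _ _ _).symm
  unfold phs
  rw [sum_sub_distrib, sum_sub_distrib, sum_add_distrib, sum_neg_distrib, h3, h4, h5,
    neg_add_cancel, zero_sub, ← neg_add', neg_eq_zero, ← sum_add_distrib]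
  refine sum_eq_zero fun i _ => ?_
  rw [← add_mul, hB, zero_mul]

end Pool.Agent.Helper54.PT
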