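import Pool.Agent.Helper17.TD.B3

/-!
# The number of solutions of the local conditions with rows in `A` (TD C4)
-/

set_option autoImplicit false

namespace Pool.Agent.Helper17.TDC4

open Module Finset Pool.Agent.Helper54.PT Pool.Agent.Helper17.TDB

section Coord

variable {ℓ : ℕ} [Fact ℓ.Prime] {k : ℕ}

theorem sum_co (A : Submodule (ZMod ℓ) (Fin k → ZMod ℓ)) {a : Fin k → ZMod ℓ} (ha : a ∈ A)
    (i : Fin k) : ∑ p, ((bs A p : Fin k → ZMod ℓ) i) * co A a p = a i := by
  have h1 : co A a = (bs A).equivFun ⟨a, ha⟩ := by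
    change (bs A).equivFun (pr A a) = _
    have h2 := pr_apply A ⟨a, ha⟩
    change pr A a = _ at h2
    rw [h2]
  have h3 := (bs A).sum_equivFun ⟨a, ha⟩
  have h4 := congrArg (fun z : A => (z : Fin k → ZMod ℓ) i) h3
  simp only [Submodule.coe_sum, Submodule.coe_smul, Finset.sum_apply, Pi.smul_apply,
    smul_eq_mul] at h4
  rw [h1, ← h4]
  exact sum_congr rfl fun p _ => mul_comm _ _

theorem co_sum (A : Submodule (ZMod ℓ) (Fin k → ZMod ℓ))
    (c : Fin (finrank (ZMod ℓ) A) → ZMod ℓ) (p : Fin (finrank (ZMod ℓ) A)) :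
    co A (fun i => ∑ q, ((bs A q : Fin k → ZMod ℓ) i) * c q) p = c p := by
  have h1 : (fun i => ∑ q, ((bs A q : Fin k → ZMod ℓ) i) * c q) =
      ∑ q, c q • (bs A q : Fin k → ZMod ℓ) := by
    funext i
    rw [Finset.sum_apply]
    refine sum_congr rfl fun q _ => ?_
    rw [Pi.smul_apply, smul_eq_mul, mul_comm]
  rw [h1, map_sum, Finset.sum_apply]
  simp only [map_smul, co_basis, Pi.smul_apply, smul_eq_mul]
  rw [Finset.sum_eq_single p]
  · simp
  · intro q _ hq
    rw [Pi.single_apply, if_neg (fun h => hq h.symm), mul_zero]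
  · intro h
    exact absurd (mem_univ _) h

theorem row_mem (A : Submodule (ZMod ℓ) (Fin k → ZMod ℓ))
    (c : Fin (finrank (ZMod ℓ) A) → ZMod ℓ) :
    (fun i => ∑ q, ((bs A q : Fin k → ZMod ℓ) i) * c q) ∈ A := by
  have h1 : (fun i => ∑ q, ((bs A q : Fin k → ZMod ℓ) i) * c q) =
      ∑ q, c q • (bs A q : Fin k → ZMod ℓ) := by
    funext i
    rw [Finset.sum_apply]
    refine sum_congr rfl fun q _ => ?_
    rw [Pi.smul_apply, smul_eq_mul, mul_comm]
  rw [h1]
  exact A.sum_mem fun q _ => A.smul_mem _ (bs A q).2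

theorem co_apply (A : Submodule (ZMod ℓ) (Fin k → ZMod ℓ)) (a : Fin k → ZMod ℓ)
    (p : Fin (finrank (ZMod ℓ) A)) :
    co A a p = ∑ i, co A (Pi.single i 1) p * a i := by
  have h1 : ∑ i, a i • (Pi.single i (1 : ZMod ℓ)) = a := by
    funext j
    rw [Finset.sum_apply]
    simp [Pi.single_apply]
  conv_lhs => rw [← h1]
  rw [map_sum, Finset.sum_apply]
  refine sum_congr rfl fun i _ => ?_
  rw [map_smul, Pi.smul_apply, smul_eq_mul, mul_comm]

end Coord

section Main

variable {ℓ : ℕ} [Fact ℓ.Prime] {σ : Type} [Fintype σ] [DecidableEq σ] {J : Type} [Fintype J]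
  [DecidableEq J] {β γ : J → J → ZMod ℓ} {τ : (J → ZMod ℓ) →+ (J → Option σ → ZMod ℓ)}
  {H : (Option σ → J → ZMod ℓ) → (Option σ → J → ZMod ℓ) → (Option σ → ZMod ℓ) → Prop}

/-- The local conditions form a subspace. -/
def Hs (hH : TDat β γ τ H) (κ : Option σ → ZMod ℓ) :
    Submodule (ZMod ℓ) ((Option σ → J → ZMod ℓ) × (Option σ → J → ZMod ℓ)) :=
  have h0 : H 0 0 κ := by
    have h := hH.tor 0 κ
    have h1 : (fun s j => τ 0 j s) = (0 : Option σ → J → ZMod ℓ) := by
      rw [map_zero]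
      rfl
    have h2 : (fun s j => κ s * (0 : J → ZMod ℓ) j) = (0 : Option σ → J → ZMod ℓ) := by
      funext s j
      exact mul_zero _
    rw [h1, h2] at h
    exact h
  AddSubgroup.toZModSubmodule ℓ
    { carrier := {x | H x.1 x.2 κ}
      zero_mem' := h0
      add_mem' := fun {x y} hx hy => hH.add _ _ _ _ κ hx hy
      neg_mem' := fun {x} hx => by
        have h1 : ∀ n : ℕ, H (n • x).1 (n • x).2 κ := by
          intro n
          induction n with
          | zero =>
            rw [zero_smul]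
            exact h0
          | succ n ih =>
            rw [succ_nsmul]
            exact hH.add _ _ _ _ κ ih hx
        have h2 : -x = (ℓ - 1) • x := by
          have h3 : ℓ • x = 0 := by
            rw [← Nat.cast_smul_eq_nsmul (ZMod ℓ), ZMod.natCast_self, zero_smul]
          have h4 : (ℓ - 1) • x + x = 0 := by
            rw [← succ_nsmul, Nat.sub_add_cancel (Fact.out : ℓ.Prime).one_le]
            exact h3
          exact (eq_neg_of_add_eq_zero_left h4).symm
        change H (-x).1 (-x).2 κ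
        rw [h2]
        exact h1 _ }

theorem mem_Hs {hH : TDat β γ τ H} {κ : Option σ → ZMod ℓ}
    {x : (Option σ → J → ZMod ℓ) × (Option σ → J → ZMod ℓ)} : x ∈ Hs hH κ ↔ H x.1 x.2 κ :=
  Iff.rfl

/-- The bijection between tuples of solutions and solutions with rows in `A`. -/
noncomputable def eqv (hH : TDat β γ τ H) {k : ℕ} (A : Submodule (ZMod ℓ) (Fin k → ZMod ℓ))
    (κ : Option σ → ZMod ℓ) :
    (Fin (finrank (ZMod ℓ) A) → Hs hH κ) ≃
    {x : (Option σ → J × Fin k → ZMod ℓ) × (Option σ → J × Fin k → ZMod ℓ) //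
      HK k H x.1 x.2 κ ∧ ∀ s j, (fun i => x.1 s (j, i)) ∈ A ∧ (fun i => x.2 s (j, i)) ∈ A} where
  toFun w := ⟨(fun s p => ∑ q, ((bs A q : Fin k → ZMod ℓ) p.2) * (w q).1.1 s p.1,
      fun s p => ∑ q, ((bs A q : Fin k → ZMod ℓ) p.2) * (w q).1.2 s p.1),
    fun i => by
      have h1 : (∑ q, ((bs A q : Fin k → ZMod ℓ) i) • (w q).1) ∈ Hs hH κ :=
        Submodule.sum_mem _ fun q _ => Submodule.smul_mem _ _ (w q).2
      rw [mem_Hs] at h1
      have h2 : (∑ q, ((bs A q : Fin k → ZMod ℓ) i) • (w q).1).1 = fun s j =>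
          ∑ q, ((bs A q : Fin k → ZMod ℓ) i) * (w q).1.1 s j := by
        funext s j
        rw [Prod.fst_sum, Finset.sum_apply, Finset.sum_apply]
        rfl
      have h3 : (∑ q, ((bs A q : Fin k → ZMod ℓ) i) • (w q).1).2 = fun s j =>
          ∑ q, ((bs A q : Fin k → ZMod ℓ) i) * (w q).1.2 s j := by
        funext s j
        rw [Prod.snd_sum, Finset.sum_apply, Finset.sum_apply]
        rfl
      rw [h2, h3] at h1
      exact h1,
    fun s j => ⟨row_mem A fun q => (w q).1.1 s j, row_mem A fun q => (w q).1.2 s j⟩⟩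
  invFun x := fun p => ⟨(fun s j => co A (fun i => x.1.1 s (j, i)) p,
      fun s j => co A (fun i => x.1.2 s (j, i)) p), by
    have h1 : (∑ i, (co A (Pi.single i 1) p) • ((fun s j => x.1.1 s (j, i),
        fun s j => x.1.2 s (j, i)) : (Option σ → J → ZMod ℓ) × (Option σ → J → ZMod ℓ))) ∈
        Hs hH κ :=
      Submodule.sum_mem _ fun i _ => Submodule.smul_mem _ _ (x.2.1 i)
    have h2 : (∑ i, (co A (Pi.single i 1) p) • ((fun s j => x.1.1 s (j, i),
        fun s j => x.1.2 s (j, i)) : (Option σ → J → ZMod ℓ) × (Option σ → J → ZMod ℓ))) =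
        (fun s j => co A (fun i => x.1.1 s (j, i)) p,
          fun s j => co A (fun i => x.1.2 s (j, i)) p) := by
      refine Prod.ext ?_ ?_
      · funext s j
        rw [Prod.fst_sum, Finset.sum_apply, Finset.sum_apply]
        change _ = co A (fun i => x.1.1 s (j, i)) p
        rw [co_apply]
        rfl
      · funext s j
        rw [Prod.snd_sum, Finset.sum_apply, Finset.sum_apply]
        change _ = co A (fun i => x.1.2 s (j, i)) p
        rw [co_apply]
        rfl
    rw [h2] at h1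
    exact h1⟩
  left_inv w := by
    funext p
    apply Subtype.ext
    refine Prod.ext ?_ ?_
    · funext s j
      exact co_sum A (fun q => (w q).1.1 s j) p
    · funext s j
      exact co_sum A (fun q => (w q).1.2 s j) p
  right_inv x := by
    apply Subtype.ext
    refine Prod.ext ?_ ?_
    · funext s p
      exact sum_co A (x.2.2 s p.1).1 p.2
    · funext s p
      exact sum_co A (x.2.2 s p.1).2 p.2

end Main

end Pool.Agent.Helper17.TDC4

namespace Pool.Agent.Helper54.PT

open Module Finset Pool.Agent.Helper17.TDC4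

variable {ℓ : ℕ} [Fact ℓ.Prime] {σ : Type} [Fintype σ] [DecidableEq σ] {J : Type} [Fintype J]
  [DecidableEq J] {β γ : J → J → ZMod ℓ} {τ : (J → ZMod ℓ) →+ (J → Option σ → ZMod ℓ)}
  {H : (Option σ → J → ZMod ℓ) → (Option σ → J → ZMod ℓ) → (Option σ → ZMod ℓ) → Prop}

/-- C4: the number of solutions of the local conditions with rows in `A` -/
theorem card_HK (hH : TDat β γ τ H) {k : ℕ} (A : Submodule (ZMod ℓ) (Fin k → ZMod ℓ))
    (κ : Option σ → ZMod ℓ) :
    Nat.card {x : (Option σ → J × Fin k → ZMod ℓ) × (Option σ → J × Fin k → ZMod ℓ) //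
      HK k H x.1 x.2 κ ∧ ∀ s j, (fun i => x.1 s (j, i)) ∈ A ∧ (fun i => x.2 s (j, i)) ∈ A} =
        ℓ ^ (Fintype.card J * (Fintype.card σ + 1) * finrank (ZMod ℓ) A) := by
  rw [← Nat.card_congr (eqv hH A κ), Nat.card_fun, Nat.card_fin]
  have h1 : Nat.card (Hs hH κ) = ℓ ^ (Fintype.card J * (Fintype.card σ + 1)) := hH.card κ
  rw [h1, ← pow_mul]

end Pool.Agent.Helper54.PT
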