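import Pool.Agent.Helper17.TD.B1
import Pool.Agent.Helper17.TD.C3

/-!
# The surviving sets of indices are maximal unlinked sets (TD C6)
-/

set_option autoImplicit false

namespace Pool.Agent.Helper17.TDC6

open Module Finset Pool.Agent.Helper54.PT Pool.Agent.Helper17.TDB Pool.Agent.Helper17.TDC

variable {ℓ : ℕ} [Fact ℓ.Prime] {J : Type} [Fintype J] [DecidableEq J]
  {β γ : J → J → ZMod ℓ} {k : ℕ}

theorem inv' (hinv : ∀ i k, ∑ j, γ i j * β j k = if i = k then 1 else 0) (i k : J) :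
    ∑ j, β i j * γ j k = if i = k then 1 else 0 := by
  have h1 : Matrix.of γ * Matrix.of β = 1 := by
    ext i k
    rw [Matrix.mul_apply, Matrix.one_apply]
    exact hinv i k
  have h2 := mul_eq_one_comm.1 h1
  have h3 := congrFun (congrFun h2 i) k
  rw [Matrix.mul_apply, Matrix.one_apply] at h3
  exact h3

/-- The index with given rows. -/
def unrows (β : J → J → ZMod ℓ) (z : J → (Fin k → ZMod ℓ) × (Fin k → ZMod ℓ)) :
    (J × Fin k → ZMod ℓ) × (J × Fin k → ZMod ℓ) :=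
  (fun p => (z p.1).1 p.2, fun p => ∑ j', β p.1 j' * (z j').2 p.2)

theorem rows_unrows (hinv : ∀ i k, ∑ j, γ i j * β j k = if i = k then 1 else 0)
    (z : J → (Fin k → ZMod ℓ) × (Fin k → ZMod ℓ)) (j : J) : rows γ (unrows β z) j = z j := by
  refine Prod.ext rfl ?_
  funext i
  change ∑ j', γ j j' * ∑ j'', β j' j'' * (z j'').2 i = (z j).2 i
  have h1 : ∑ j', γ j j' * ∑ j'', β j' j'' * (z j'').2 i =
      ∑ j'', (∑ j', γ j j' * β j' j'') * (z j'').2 i := by
    simp only [mul_sum, sum_mul]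
    rw [sum_comm]
    exact sum_congr rfl fun _ _ => sum_congr rfl fun _ _ => by ring
  rw [h1]
  simp only [hinv, ite_mul, one_mul, zero_mul, sum_ite_eq, mem_univ, if_true]

theorem unrows_rows (hinv : ∀ i k, ∑ j, γ i j * β j k = if i = k then 1 else 0)
    (u : (J × Fin k → ZMod ℓ) × (J × Fin k → ZMod ℓ)) : unrows β (rows γ u) = u := by
  refine Prod.ext rfl ?_
  funext p
  change ∑ j', β p.1 j' * ∑ j'', γ j' j'' * u.2 (j'', p.2) = u.2 p
  have h1 : ∑ j', β p.1 j' * ∑ j'', γ j' j'' * u.2 (j'', p.2) =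
      ∑ j'', (∑ j', β p.1 j' * γ j' j'') * u.2 (j'', p.2) := by
    simp only [mul_sum, sum_mul]
    rw [sum_comm]
    exact sum_congr rfl fun _ _ => sum_congr rfl fun _ _ => by ring
  rw [h1]
  simp only [inv' hinv, ite_mul, one_mul, zero_mul, sum_ite_eq, mem_univ, if_true]

omit [DecidableEq J] in
theorem rows_sub (u u' : (J × Fin k → ZMod ℓ) × (J × Fin k → ZMod ℓ)) (j : J) :
    rows γ (u - u') j = rows γ u j - rows γ u' j := by
  refine Prod.ext rfl ?_
  funext i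
  change ∑ j', γ j j' * (u.2 (j', i) - u'.2 (j', i)) =
    ∑ j', γ j j' * u.2 (j', i) - ∑ j', γ j j' * u'.2 (j', i)
  rw [← sum_sub_distrib]
  exact sum_congr rfl fun _ _ => mul_sub _ _ _

omit [DecidableEq J] in
theorem rows_add (u u' : (J × Fin k → ZMod ℓ) × (J × Fin k → ZMod ℓ)) (j : J) :
    rows γ (u + u') j = rows γ u j + rows γ u' j := by
  refine Prod.ext rfl ?_
  funext i
  change ∑ j', γ j j' * (u.2 (j', i) + u'.2 (j', i)) =
    ∑ j', γ j j' * u.2 (j', i) + ∑ j', γ j j' * u'.2 (j', i)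
  rw [← sum_add_distrib]
  exact sum_congr rfl fun _ _ => mul_add _ _ _

/-- The bijection between `UL γ L u₀` and families of elements of `L`. -/
def ulEquiv (hinv : ∀ i k, ∑ j, γ i j * β j k = if i = k then 1 else 0)
    (L : Submodule (ZMod ℓ) ((Fin k → ZMod ℓ) × (Fin k → ZMod ℓ)))
    (u₀ : (J × Fin k → ZMod ℓ) × (J × Fin k → ZMod ℓ)) :
    {u // u ∈ UL γ L u₀} ≃ (J → L) where
  toFun u := fun j => ⟨rows γ (u.1 - u₀) j, mem_UL.1 u.2 j⟩
  invFun z := ⟨unrows β (fun j => (z j : (Fin k → ZMod ℓ) × (Fin k → ZMod ℓ))) + u₀,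
    mem_UL.2 fun j => by
      rw [add_sub_cancel_right, rows_unrows hinv]
      exact (z j).2⟩
  left_inv u := by
    apply Subtype.ext
    change unrows β (rows γ (u.1 - u₀)) + u₀ = u.1
    rw [unrows_rows hinv, sub_add_cancel]
  right_inv z := by
    funext j
    apply Subtype.ext
    change rows γ (unrows β (fun j => (z j : (Fin k → ZMod ℓ) × (Fin k → ZMod ℓ))) + u₀ - u₀) j =
      z j
    rw [add_sub_cancel_right, rows_unrows hinv]

theorem card_UL (hinv : ∀ i k, ∑ j, γ i j * β j k = if i = k then 1 else 0)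
    {L : Submodule (ZMod ℓ) ((Fin k → ZMod ℓ) × (Fin k → ZMod ℓ))} (hL : IsLk L)
    (u₀ : (J × Fin k → ZMod ℓ) × (J × Fin k → ZMod ℓ)) :
    (UL γ L u₀).card = ℓ ^ (Fintype.card J * k) := by
  have h1 : Nat.card {u // u ∈ UL γ L u₀} = (UL γ L u₀).card := by
    rw [Nat.card_eq_fintype_card, Fintype.card_coe]
  rw [← h1, Nat.card_congr (ulEquiv hinv L u₀), Nat.card_fun, Nat.card_eq_fintype_card (α := J),
    Module.natCard_eq_pow_finrank (K := ZMod ℓ), Nat.card_zmod, hL.1, ← pow_mul, mul_comm]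

theorem unl_UL (hsym : ∀ i j, β i j = β j i)
    (hinv : ∀ i k, ∑ j, γ i j * β j k = if i = k then 1 else 0)
    (halt : ∀ c : ZMod ℓ, c + c = 0 → ∀ i, c * β i i = 0)
    {L : Submodule (ZMod ℓ) ((Fin k → ZMod ℓ) × (Fin k → ZMod ℓ))} (hL : IsLk L)
    (u₀ : (J × Fin k → ZMod ℓ) × (J × Fin k → ZMod ℓ)) :
    Unl PhiJ (UL γ L u₀) := by
  intro u hu u' hu'
  rw [mem_UL] at hu hu'
  set x := u' - u with hx
  have hxL : ∀ j, rows γ x j ∈ L := by
    intro j
    have h1 : x = (u' - u₀) - (u - u₀) := by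
      rw [hx, sub_sub_sub_cancel_right]
    rw [h1, rows_sub]
    exact L.sub_mem (hu' j) (hu j)
  have h1 : PhiJ u u' + PhiJ u' u = - ∑ p, x.1 p * x.2 p := by
    unfold PhiJ
    rw [← sum_add_distrib, ← sum_neg_distrib]
    refine sum_congr rfl fun p _ => ?_
    rw [hx]
    simp only [Prod.fst_sub, Prod.snd_sub, Pi.sub_apply]
    ring
  have h2 : ∀ j j', dotB (ZMod ℓ) k (rows γ x j).1 (rows γ x j').2 +
      dotB (ZMod ℓ) k (rows γ x j').1 (rows γ x j).2 = 0 := by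
    intro j j'
    rw [← phiK_eq]
    exact hL.2 _ (hxL j) _ (hxL j')
  have h3 : ∑ p, x.1 p * x.2 p =
      ∑ j, ∑ j', dotB (ZMod ℓ) k (rows γ x j).1 (rows γ x j').2 * β j' j := by
    have h4 : ∀ p, x.2 p = ∑ j', β p.1 j' * (rows γ x j').2 p.2 := fun p =>
      (congrFun (congrArg Prod.snd (unrows_rows hinv x)) p).symm
    rw [Fintype.sum_prod_type]
    refine sum_congr rfl fun j _ => ?_
    simp only [h4, dotB_apply, mul_sum, sum_mul]
    rw [sum_comm]
    refine sum_congr rfl fun j' _ => sum_congr rfl fun i _ => ?_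
    rw [hsym j' j]
    change x.1 (j, i) * (β j j' * (rows γ x j').2 i) = x.1 (j, i) * (rows γ x j').2 i * β j j'
    ring
  rw [h1, h3, sum_anti_sym _ _ h2 hsym, neg_eq_zero]
  exact sum_eq_zero fun j _ => halt _ (h2 j j) j

end Pool.Agent.Helper17.TDC6

namespace Pool.Agent.Helper54.PT

open Module Finset Pool.Agent.Helper17.TDC6

variable {ℓ : ℕ} [Fact ℓ.Prime] {J : Type} [Fintype J] [DecidableEq J] {β γ : J → J → ZMod ℓ}

/-- C6: the surviving sets of indices are maximal unlinked sets -/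
theorem UL_mem_maxU (hsym : ∀ i j, β i j = β j i)
    (hinv : ∀ i k, ∑ j, γ i j * β j k = if i = k then 1 else 0)
    (halt : ∀ c : ZMod ℓ, c + c = 0 → ∀ i, c * β i i = 0) {k : ℕ}
    (L : Submodule (ZMod ℓ) ((Fin k → ZMod ℓ) × (Fin k → ZMod ℓ))) (hL : IsLk L)
    (u₀ : (J × Fin k → ZMod ℓ) × (J × Fin k → ZMod ℓ)) :
    UL γ L u₀ ∈ maxU (PhiJ (ℓ := ℓ) (J := J × Fin k)) (ℓ ^ Fintype.card (J × Fin k)) := by
  classical
  unfold maxU
  rw [mem_filter]
  refine ⟨mem_univ _, unl_UL hsym hinv halt hL u₀, ?_⟩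
  rw [card_UL hinv hL, Fintype.card_prod, Fintype.card_fin]

end Pool.Agent.Helper54.PT
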