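import Pool.Agent.Helper17.TD.C6

/-!
# The number of surviving sets of indices (TD C7)
-/

set_option autoImplicit false

namespace Pool.Agent.Helper17.TDC7

open Module Finset Pool.Agent.Helper54.PT Pool.Agent.Helper17.TDC6

variable {ℓ : ℕ} [Fact ℓ.Prime] {J : Type} [Fintype J] [DecidableEq J]
  {β γ : J → J → ZMod ℓ} {k : ℕ}

omit [DecidableEq J] in
theorem rows_zero (j : J) :
    rows γ (0 : (J × Fin k → ZMod ℓ) × (J × Fin k → ZMod ℓ)) j = 0 := by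
  refine Prod.ext rfl ?_
  funext i
  change ∑ j', γ j j' * (0 : ZMod ℓ) = 0
  simp

omit [DecidableEq J] in
theorem self_mem (L : Submodule (ZMod ℓ) ((Fin k → ZMod ℓ) × (Fin k → ZMod ℓ)))
    (u : (J × Fin k → ZMod ℓ) × (J × Fin k → ZMod ℓ)) : u ∈ UL γ L u := by
  rw [mem_UL]
  intro j
  rw [sub_self, rows_zero]
  exact L.zero_mem

omit [DecidableEq J] in
theorem UL_eq {L : Submodule (ZMod ℓ) ((Fin k → ZMod ℓ) × (Fin k → ZMod ℓ))}
    {u u₀ : (J × Fin k → ZMod ℓ) × (J × Fin k → ZMod ℓ)} (h : u ∈ UL γ L u₀) :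
    UL γ L u = UL γ L u₀ := by
  rw [mem_UL] at h
  ext x
  rw [mem_UL, mem_UL]
  constructor
  · intro h1 j
    have h2 : x - u₀ = (x - u) + (u - u₀) := by rw [sub_add_sub_cancel]
    rw [h2, rows_add]
    exact L.add_mem (h1 j) (h j)
  · intro h1 j
    have h2 : x - u = (x - u₀) - (u - u₀) := by rw [sub_sub_sub_cancel_right]
    rw [h2, rows_sub]
    exact L.sub_mem (h1 j) (h j)

theorem le_of_UL_eq [Nonempty J] (hinv : ∀ i k, ∑ j, γ i j * β j k = if i = k then 1 else 0)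
    {L L' : Submodule (ZMod ℓ) ((Fin k → ZMod ℓ) × (Fin k → ZMod ℓ))}
    {u : (J × Fin k → ZMod ℓ) × (J × Fin k → ZMod ℓ)} (h : UL γ L u = UL γ L' u) : L ≤ L' := by
  intro z hz
  obtain ⟨j₀⟩ := (inferInstance : Nonempty J)
  have h1 : unrows β (fun _ => z) + u ∈ UL γ L u := by
    rw [mem_UL]
    intro j
    rw [add_sub_cancel_right, rows_unrows hinv]
    exact hz
  rw [h, mem_UL] at h1
  have h2 := h1 j₀
  rw [add_sub_cancel_right, rows_unrows hinv] at h2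
  exact h2

/-- The surviving sets of indices. -/
abbrev Sv (γ : J → J → ZMod ℓ) (k : ℕ) : Type :=
  {𝒰 : Finset ((J × Fin k → ZMod ℓ) × (J × Fin k → ZMod ℓ)) //
    ∃ L u₀, IsLk L ∧ 𝒰 = UL γ L u₀}

/-- A subspace and an index give a surviving set with a marked element. -/
noncomputable def mk (γ : J → J → ZMod ℓ) (k : ℕ)
    (x : {L : Submodule (ZMod ℓ) ((Fin k → ZMod ℓ) × (Fin k → ZMod ℓ)) // IsLk L} ×
      ((J × Fin k → ZMod ℓ) × (J × Fin k → ZMod ℓ))) :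
    (𝒰 : Sv γ k) × {u // u ∈ 𝒰.1} :=
  ⟨⟨UL γ x.1.1 x.2, x.1.1, x.2, x.1.2, rfl⟩, ⟨x.2, self_mem _ _⟩⟩

theorem mk_bij [Nonempty J] (hinv : ∀ i k, ∑ j, γ i j * β j k = if i = k then 1 else 0)
    (k : ℕ) : Function.Bijective (mk γ k) := by
  constructor
  · rintro ⟨⟨L, hL⟩, u⟩ ⟨⟨L', hL'⟩, u'⟩ h
    have h1 : UL γ L u = UL γ L' u' :=
      congrArg (fun z : (𝒰 : Sv γ k) × {u // u ∈ 𝒰.1} => z.1.1) h
    have h2 : u = u' := congrArg (fun z : (𝒰 : Sv γ k) × {u // u ∈ 𝒰.1} => z.2.1) h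
    subst h2
    have h3 : L = L' := le_antisymm (le_of_UL_eq hinv h1) (le_of_UL_eq hinv h1.symm)
    subst h3
    rfl
  · rintro ⟨⟨𝒰, L, u₀, hL, rfl⟩, ⟨u, hu⟩⟩
    refine ⟨⟨⟨L, hL⟩, u⟩, ?_⟩
    have h1 : (⟨UL γ L u, L, u, hL, rfl⟩ : Sv γ k) = ⟨UL γ L u₀, L, u₀, hL, rfl⟩ :=
      Subtype.ext (UL_eq hu)
    refine Sigma.ext h1 ?_
    refine (Subtype.heq_iff_coe_eq ?_).2 rfl
    intro x
    change x ∈ UL γ L u ↔ x ∈ UL γ L u₀
    rw [UL_eq hu]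

end Pool.Agent.Helper17.TDC7

namespace Pool.Agent.Helper54.PT

open Module Finset Pool.Agent.Helper17.TDC6 Pool.Agent.Helper17.TDC7

variable {ℓ : ℕ} [Fact ℓ.Prime] {J : Type} [Fintype J] [DecidableEq J] {β γ : J → J → ZMod ℓ}

set_option linter.unusedVariables false in
/-- C7: the number of surviving sets of indices -/
theorem card_survivors [Nonempty J] (hsym : ∀ i j, β i j = β j i)
    (hinv : ∀ i k, ∑ j, γ i j * β j k = if i = k then 1 else 0)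
    (halt : ∀ c : ZMod ℓ, c + c = 0 → ∀ i, c * β i i = 0) (k : ℕ) :
    Nat.card {𝒰 : Finset ((J × Fin k → ZMod ℓ) × (J × Fin k → ZMod ℓ)) //
      ∃ L u₀, IsLk L ∧ 𝒰 = UL γ L u₀} = NL ℓ k * ℓ ^ (Fintype.card J * k) := by
  classical
  have : Fintype (Sv γ k) := Fintype.ofFinite _
  have h1 := Nat.card_congr (Equiv.ofBijective _ (mk_bij (γ := γ) hinv k))
  have h2 : Nat.card ((𝒰 : Sv γ k) × {u // u ∈ 𝒰.1}) =
      Nat.card (Sv γ k) * ℓ ^ (Fintype.card J * k) := by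
    rw [Nat.card_sigma]
    have h3 : ∀ 𝒰 : Sv γ k, Nat.card {u // u ∈ 𝒰.1} = ℓ ^ (Fintype.card J * k) := by
      rintro ⟨𝒰, L, u₀, hL, rfl⟩
      rw [← card_UL hinv hL u₀, Nat.card_eq_fintype_card, Fintype.card_coe]
    rw [sum_congr rfl fun 𝒰 _ => h3 𝒰, sum_const, smul_eq_mul, card_univ,
      Nat.card_eq_fintype_card]
  have h4 : Nat.card ({L : Submodule (ZMod ℓ) ((Fin k → ZMod ℓ) × (Fin k → ZMod ℓ)) //
      IsLk L} × ((J × Fin k → ZMod ℓ) × (J × Fin k → ZMod ℓ))) =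
      NL ℓ k * (ℓ ^ (Fintype.card J * k) * ℓ ^ (Fintype.card J * k)) := by
    rw [Nat.card_prod, Nat.card_prod, Nat.card_fun, Nat.card_prod, Nat.card_zmod,
      Nat.card_fin, Nat.card_eq_fintype_card (α := J)]
    rfl
  rw [h2, h4, ← mul_assoc] at h1
  exact (Nat.eq_of_mul_eq_mul_right (Nat.pow_pos (Fact.out : ℓ.Prime).pos) h1).symm

end Pool.Agent.Helper54.PT
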